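import Pool.Agent.H65.NV.PTargets
import Pool.Agent.H86.NVK.SMM

/-!
# MP_347b49_nt, part P: row ISM, the sum over the ideals
-/

set_option autoImplicit false

open MeasureTheory Set Filter NumberField NumberField.InfinitePlace
open Pool.Agent.H65.CM4 Pool.Agent.H61.NVK Pool.Agent.H89.NV Pool.Agent.H65.NV
open scoped Real

namespace Pool.Agent.H34.NVP_ISM

variable (k : Type) [Field k] [NumberField k]

theorem pf_ISM : T_ISM k := by
  have h := Pool.Agent.H86.NVK.summable_nm k
  exact h.mul_of_nonneg h (fun I => by positivity) (fun I => by positivity)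

end Pool.Agent.H34.NVP_ISM
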